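import Mathlib

/-!
# The normalised number of prime factors of `⌊α n² + β n + γ⌋` and its distance from a normal law
-/

namespace Pool.Agent.H62.EK
open ProbabilityTheory

/-- The normalised number of distinct prime factors of `⌊α n² + β n + γ⌋`:
`(ω(⌊α n² + β n + γ⌋) - log log N) / √(log log N)`. -/
noncomputable def X (α β γ : ℝ) (N n : ℕ) : ℝ :=
  ((⌊α * n ^ 2 + β * n + γ⌋₊.primeFactors.card : ℝ) - Real.log (Real.log N)) /
    √(Real.log (Real.log N))

open Classical in
/-- Kolmogorov distance between `X α β γ N n`, `n` uniform on `{1,…,N}`, and a standard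
normal variable. -/
noncomputable def dK (α β γ : ℝ) (N : ℕ) : ℝ :=
  ⨆ x : ℝ, |(((Finset.Icc 1 N).filter fun n => X α β γ N n ≤ x).card : ℝ) / N -
    cdf (gaussianReal 0 1) x|

/-- The number of the `n ≤ N` such that `⌊α n² + β n + γ⌋` has more than `θ log log N` distinct
prime factors. -/
noncomputable def rich (α β γ θ : ℝ) (N : ℕ) : ℕ :=
  ((Finset.Icc 1 N).filter fun n : ℕ => θ * Real.log (Real.log N) <
    (⌊α * (n : ℝ) ^ 2 + β * n + γ⌋₊.primeFactors.card : ℝ)).card

/-- `(α, β, γ)` is admissible: `α > 0`, `β² < 4 α γ`, and `α`, `β` are not both rational. -/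
def Admissible (α β γ : ℝ) : Prop :=
  0 < α ∧ β ^ 2 < 4 * α * γ ∧ (Irrational α ∨ Irrational β)

/-- `α > 0` and the minimum `γ - β²/(4α)` of `α x² + β x + γ` over the reals is less than `1`. -/
def Dips (α β γ : ℝ) : Prop := 0 < α ∧ 4 * α * (γ - 1) < β ^ 2

/-- For every `k` there is `K ≥ k` such that for all `N` in the whole range `[K, Φ K]` the Kolmogorov
distance exceeds `k |η N|`, and more than `k |η N| N` of the `n ≤ N` have more than
`(2 - 1/(k+2)) log log N` prime factors in `⌊α n² + β n + γ⌋`. -/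
def Fails (η : ℕ → ℝ) (Φ : ℕ → ℕ) (α β γ : ℝ) : Prop :=
  ∀ k : ℕ, ∃ K ≥ k, ∀ N, K ≤ N → N ≤ Φ K →
    k * |η N| < dK α β γ N ∧ k * |η N| * N < rich α β γ (2 - 1 / (k + 2)) N

end Pool.Agent.H62.EK
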