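import Pool.Agent.H62.EK.Gen

/-!
# Split pairs are dense, also on rational lines
-/

namespace Pool.Agent.H62.EK
open Filter Topology

lemma split_aux (α₀ β₀ γ₁ γ₂ : ℝ) (K r b1 d1 b2 d2 : ℕ) (hK : 0 < K) (hb1 : 0 < b1) (hd1 : 0 < d1)
    (hb2 : 0 < b2) (hd2 : 0 < d2) (hlt : b2 * d1 < b1 * d2)
    (hprod : α₀ * ((b1 : ℝ) / d1) * ((b2 : ℝ) / d2) = K)
    (hβ : β₀ = α₀ * ((b1 : ℝ) / d1 + (b2 : ℝ) / d2 - 2 * r))
    (hs1 : γ₂ - 1 < α₀ * ((b1 : ℝ) / d1 - r) * ((b2 : ℝ) / d2 - r))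
    (hs2 : α₀ * ((b1 : ℝ) / d1 - r) * ((b2 : ℝ) / d2 - r) < γ₁) : Split α₀ β₀ γ₁ γ₂ := by
  have p1 : (0 : ℝ) < d1 := by exact_mod_cast hd1
  have p2 : (0 : ℝ) < d2 := by exact_mod_cast hd2
  refine ⟨K, b2 * d1, b1 * d2, b1 * b2, r, α₀ * ((b1 : ℝ) / d1 - r) * ((b2 : ℝ) / d2 - r), hK,
    Nat.mul_pos hb2 hd1, Nat.mul_pos hb1 hd2, hlt, Nat.mul_pos hb1 hb2, hs1, hs2, fun m => ?_⟩
  push_cast
  rw [← hprod, hβ]
  field_simp
  ring

lemma split_of (α₀ β₀ γ₁ γ₂ : ℝ) (K r : ℕ) (y1 y2 : ℚ) (hK : 0 < K) (h1 : 0 < y1) (h2 : 0 < y2)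
    (hlt : y2 < y1) (hprod : α₀ * y1 * y2 = K) (hβ : β₀ = α₀ * (y1 + y2 - 2 * r))
    (hs1 : γ₂ - 1 < α₀ * (y1 - r) * (y2 - r)) (hs2 : α₀ * (y1 - r) * (y2 - r) < γ₁) :
    Split α₀ β₀ γ₁ γ₂ := by
  obtain ⟨b1, hb1⟩ : ∃ b : ℕ, (b : ℤ) = y1.num :=
    ⟨y1.num.toNat, Int.toNat_of_nonneg (Rat.num_pos.2 h1).le⟩
  obtain ⟨b2, hb2⟩ : ∃ b : ℕ, (b : ℤ) = y2.num :=
    ⟨y2.num.toNat, Int.toNat_of_nonneg (Rat.num_pos.2 h2).le⟩
  have q1 : 0 < b1 := by have := Rat.num_pos.2 h1; omega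
  have q2 : 0 < b2 := by have := Rat.num_pos.2 h2; omega
  have e1 : (y1 : ℝ) = (b1 : ℝ) / y1.den := by rw [Rat.cast_def, ← hb1]; simp
  have e2 : (y2 : ℝ) = (b2 : ℝ) / y2.den := by rw [Rat.cast_def, ← hb2]; simp
  have hlt' : (y2 : ℝ) < y1 := by exact_mod_cast hlt
  have r1 : (0 : ℝ) < y1.den := by exact_mod_cast y1.den_pos
  have r2 : (0 : ℝ) < y2.den := by exact_mod_cast y2.den_pos
  rw [e1, e2, div_lt_div_iff₀ r2 r1] at hlt'
  rw [e1, e2] at hprod hβ hs1 hs2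
  exact split_aux α₀ β₀ γ₁ γ₂ K r b1 y1.den b2 y2.den hK q1 y1.den_pos q2 y2.den_pos
    (by exact_mod_cast hlt') hprod hβ hs1 hs2

/-- a rational first root -/
lemma exists_root (α β γ₁ γ₂ : ℝ) (h : Dips α β γ₂) (hγ : γ₂ < γ₁ + 1) : ∃ x1 : ℚ,
    β < 2 * α * x1 ∧ γ₂ - 1 < x1 * (β - α * x1) ∧ x1 * (β - α * x1) < γ₁ := by
  obtain ⟨h0, h1⟩ := h
  obtain ⟨v, v1, v2⟩ := exists_between (lt_min (show γ₂ - 1 < γ₁ by linarith)
    (show γ₂ - 1 < β ^ 2 / (4 * α) by rw [lt_div_iff₀ (by positivity)]; linarith))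
  obtain ⟨v3, v4⟩ := lt_min_iff.1 v2
  rw [lt_div_iff₀ (by positivity)] at v4
  have hD : 0 < β ^ 2 - 4 * α * v := by linarith
  have hs0 : 0 < √(β ^ 2 - 4 * α * v) := Real.sqrt_pos.2 hD
  have hs : √(β ^ 2 - 4 * α * v) ^ 2 = β ^ 2 - 4 * α * v := Real.sq_sqrt hD.le
  set w := √(β ^ 2 - 4 * α * v) with hw
  have hcont : Continuous fun x : ℝ => x * (β - α * x) := by fun_prop
  have hcont2 : Continuous fun x : ℝ => 2 * α * x := by fun_prop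
  have hx2 : 2 * α * ((β + w) / (2 * α)) = β + w := by field_simp
  have hv : (β + w) / (2 * α) * (β - α * ((β + w) / (2 * α))) = v := by
    field_simp
    linarith
  have hev1 := (hcont.tendsto ((β + w) / (2 * α))).eventually
    (Ioo_mem_nhds (by rw [hv]; exact v1) (by rw [hv]; exact v3))
  have hev2 := (hcont2.tendsto ((β + w) / (2 * α))).eventually
    (lt_mem_nhds (show β < 2 * α * ((β + w) / (2 * α)) by rw [hx2]; linarith))
  obtain ⟨l, u, hz, hU⟩ := mem_nhds_iff_exists_Ioo_subset.1 (hev1.and hev2)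
  obtain ⟨x1, r1, r2⟩ := exists_rat_btwn (hz.1.trans hz.2)
  have := hU ⟨r1, r2⟩
  exact ⟨x1, this.2, this.1.1, this.1.2⟩

/-- Split pairs on the line of a fixed rational `β`. -/
lemma dense_alpha (α γ₁ γ₂ : ℝ) (β : ℚ) (h : Dips α β γ₂) (hγ : γ₂ < γ₁ + 1) (V : Set ℝ)
    (hV : V ∈ 𝓝 α) : ∃ α₀ ∈ V, Split α₀ β γ₁ γ₂ := by
  obtain ⟨x1, hx1, hx2, hx3⟩ := exists_root α β γ₁ γ₂ h hγ
  have h0 := h.1
  have hz : Tendsto (fun r : ℕ => ((r : ℝ))⁻¹) atTop (𝓝 0) := tendsto_inv_atTop_nhds_zero_nat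
  have hr : Tendsto (fun r : ℕ => (r : ℝ)) atTop atTop := tendsto_natCast_atTop_atTop
  have hK : Tendsto (fun r : ℕ => (⌊α * (r : ℝ) ^ 2⌋₊ : ℝ) * ((r : ℝ)⁻¹) ^ 2) atTop (𝓝 α) := by
    have h1 : Tendsto (fun r : ℕ => (r : ℝ) ^ 2) atTop atTop :=
      (tendsto_pow_atTop two_ne_zero).comp hr
    have h2 := (tendsto_nat_floor_mul_div_atTop (R := ℝ) h0.le).comp h1
    refine h2.congr fun r => ?_
    simp only [Function.comp]
    rw [div_eq_mul_inv, inv_pow]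
  set K : ℕ → ℕ := fun r => ⌊α * (r : ℝ) ^ 2⌋₊ with hKdef
  have hpair := hK.prodMk_nhds hz
  -- the leading coefficient
  have c1 : Tendsto (fun r : ℕ => ((K r : ℝ) - β * (r + x1)) / ((r : ℝ) ^ 2 - x1 ^ 2)) atTop
      (𝓝 α) := by
    have hc : ContinuousAt (fun p : ℝ × ℝ => (p.1 - β * (p.2 + x1 * p.2 ^ 2)) /
        (1 - (x1 : ℝ) ^ 2 * p.2 ^ 2)) (α, 0) :=
      ContinuousAt.div (by fun_prop) (by fun_prop) (by simp)
    have := hc.tendsto.comp hpair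
    simp only [zero_pow two_ne_zero, mul_zero, add_zero, sub_zero, div_one] at this
    refine this.congr' ?_
    filter_upwards [eventually_gt_atTop 0] with r hr0
    have r0 : (0 : ℝ) < r := by exact_mod_cast hr0
    simp only [Function.comp]
    rw [show ((K r : ℝ) * (r : ℝ)⁻¹ ^ 2 - β * ((r : ℝ)⁻¹ + x1 * (r : ℝ)⁻¹ ^ 2)) =
      ((K r : ℝ) - β * (r + x1)) / (r : ℝ) ^ 2 by field_simp,
      show (1 - (x1 : ℝ) ^ 2 * (r : ℝ)⁻¹ ^ 2) = ((r : ℝ) ^ 2 - x1 ^ 2) / (r : ℝ) ^ 2 by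
        field_simp,
      div_div_div_cancel_right₀ (by positivity)]
  -- the second root
  have c2 : Tendsto (fun r : ℕ => (K r : ℝ) * (r - x1) / ((K r : ℝ) - β * (r + x1)) - r) atTop
      (𝓝 ((β - α * x1) / α)) := by
    have hc : ContinuousAt (fun p : ℝ × ℝ => (β - p.1 * x1 + β * x1 * p.2) /
        (p.1 - β * (p.2 + x1 * p.2 ^ 2))) (α, 0) :=
      ContinuousAt.div (by fun_prop) (by fun_prop) (by simpa using h0.ne')
    have := hc.tendsto.comp hpair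
    simp only [zero_pow two_ne_zero, mul_zero, add_zero, sub_zero] at this
    refine this.congr' ?_
    have hne : ∀ᶠ r : ℕ in atTop, (0 : ℝ) < (K r : ℝ) * ((r : ℝ)⁻¹) ^ 2 -
        β * ((r : ℝ)⁻¹ + x1 * (r : ℝ)⁻¹ ^ 2) := by
      have hc' : ContinuousAt (fun p : ℝ × ℝ => p.1 - β * (p.2 + x1 * p.2 ^ 2)) (α, 0) := by
        fun_prop
      have := hc'.tendsto.comp hpair
      simp only [zero_pow two_ne_zero, mul_zero, add_zero, sub_zero] at this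
      exact this.eventually (lt_mem_nhds h0)
    filter_upwards [eventually_gt_atTop 0, hne] with r hr0 hne
    have r0 : (0 : ℝ) < r := by exact_mod_cast hr0
    have e1 : ((K r : ℝ) * (r : ℝ)⁻¹ ^ 2 - β * ((r : ℝ)⁻¹ + x1 * (r : ℝ)⁻¹ ^ 2)) =
      ((K r : ℝ) - β * (r + x1)) / (r : ℝ) ^ 2 := by field_simp
    have hne' : (0 : ℝ) < (K r : ℝ) - β * (r + x1) := by
      rw [e1] at hne
      exact (div_pos_iff_of_pos_right (by positivity)).1 hne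
    simp only [Function.comp]
    rw [e1, show (β - (K r : ℝ) * (r : ℝ)⁻¹ ^ 2 * x1 + β * x1 * (r : ℝ)⁻¹) =
      (β * r ^ 2 - K r * x1 + β * x1 * r) / (r : ℝ) ^ 2 by field_simp,
      div_div_div_cancel_right₀ (by positivity), div_sub' hne'.ne']
    congr 1
    ring
  -- the constant coefficient
  have c3 : Tendsto (fun r : ℕ => ((K r : ℝ) - β * (r + x1)) / ((r : ℝ) ^ 2 - x1 ^ 2) * x1 *
      ((K r : ℝ) * (r - x1) / ((K r : ℝ) - β * (r + x1)) - r)) atTop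
      (𝓝 (x1 * (β - α * x1))) := by
    have := (c1.mul_const (x1 : ℝ)).mul c2
    have e : α * x1 * ((β - α * x1) / α) = x1 * (β - α * x1) := by field_simp
    rwa [e] at this
  have hpos : ∀ᶠ r : ℕ in atTop, (0 : ℝ) < ((K r : ℝ) - β * (r + x1)) / ((r : ℝ) ^ 2 - x1 ^ 2) :=
    c1.eventually (lt_mem_nhds h0)
  have hlt : (β - α * x1) / α < x1 := by
    rw [div_lt_iff₀ h0]; linarith
  obtain ⟨r, a1, a2, a3, a4, a5, a6, a7, a8⟩ := (hpos.and ((c1.eventually hV).and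
    ((c2.eventually (gt_mem_nhds hlt)).and ((c3.eventually (Ioo_mem_nhds hx2 hx3)).and
      ((hr.eventually_gt_atTop (|(x1 : ℝ)|)).and ((hK.eventually (lt_mem_nhds h0)).and
        ((eventually_gt_atTop 0).and ((c2.eventually (lt_mem_nhds
          (show (β - α * x1) / α - 1 < (β - α * x1) / α by linarith))).and
            (hr.eventually_gt_atTop (1 - (β - α * x1) / α)))))))))).exists
  have r0 : (0 : ℝ) < r := by exact_mod_cast a7
  have hx := abs_lt.1 a5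
  have d0 : (0 : ℝ) < (r : ℝ) ^ 2 - x1 ^ 2 := by nlinarith [hx.1, hx.2]
  have n0 : (0 : ℝ) < (K r : ℝ) - β * (r + x1) := by
    have := mul_pos a1 d0
    rwa [div_mul_cancel₀ _ d0.ne'] at this
  have K0 : (0 : ℝ) < K r := by
    have : (0 : ℝ) < (r : ℝ)⁻¹ ^ 2 := by positivity
    exact (mul_pos_iff_of_pos_right this).1 a6
  have y10 : (0 : ℝ) < r + x1 := by linarith [hx.1]
  have w0 : (0 : ℝ) < r - x1 := by linarith [hx.2]
  refine ⟨_, a2, ?_⟩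
  have ey : (((K r : ℚ) * (r - x1) / ((K r : ℚ) - β * (r + x1)) : ℚ) : ℝ) =
      (K r : ℝ) * (r - x1) / ((K r : ℝ) - β * (r + x1)) := by push_cast; rfl
  have ey1 : (((r : ℚ) + x1 : ℚ) : ℝ) = (r : ℝ) + x1 := by push_cast; rfl
  refine split_of _ _ γ₁ γ₂ (K r) r ((r : ℚ) + x1) ((K r : ℚ) * (r - x1) / ((K r : ℚ) - β * (r + x1)))
    (by exact_mod_cast K0) ?_ ?_ ?_ ?_ ?_ ?_ ?_
  · have : (0 : ℝ) < (((r : ℚ) + x1 : ℚ) : ℝ) := by rw [ey1]; exact y10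
    exact_mod_cast this
  · have : (0 : ℝ) < (((K r : ℚ) * (r - x1) / ((K r : ℚ) - β * (r + x1)) : ℚ) : ℝ) := by
      rw [ey]; positivity
    exact_mod_cast this
  · have : (((K r : ℚ) * (r - x1) / ((K r : ℚ) - β * (r + x1)) : ℚ) : ℝ) <
        (((r : ℚ) + x1 : ℚ) : ℝ) := by
      rw [ey, ey1]; linarith
    exact_mod_cast this
  · rw [ey, ey1]
    field_simp
    ring
  · rw [ey, ey1]
    field_simp
    ring
  · rw [ey, ey1]
    have := a4.1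
    rwa [show (r : ℝ) + x1 - r = x1 by ring]
  · rw [ey, ey1]
    have := a4.2
    rwa [show (r : ℝ) + x1 - r = x1 by ring]

end Pool.Agent.H62.EK
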