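import Pool.Agent.H62.EK.Dens

/-!
# Split pairs are dense on the line of a fixed rational leading coefficient
-/

namespace Pool.Agent.H62.EK
open Filter Topology

lemma dense_beta (β γ₁ γ₂ : ℝ) (α : ℚ) (h : Dips α β γ₂) (hγ : γ₂ < γ₁ + 1) (V : Set ℝ)
    (hV : V ∈ 𝓝 β) : ∃ β₀ ∈ V, Split α β₀ γ₁ γ₂ := by
  obtain ⟨x1, hx1, hx2, hx3⟩ := exists_root α β γ₁ γ₂ h hγ
  have h0 := h.1
  have hz : Tendsto (fun r : ℕ => ((r : ℝ))⁻¹) atTop (𝓝 0) := tendsto_inv_atTop_nhds_zero_nat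
  have hr : Tendsto (fun r : ℕ => (r : ℝ)) atTop atTop := tendsto_natCast_atTop_atTop
  -- `α r² + β r` tends to infinity
  have hw : Tendsto (fun r : ℕ => (α : ℝ) * (r : ℝ) ^ 2 + β * r) atTop atTop := by
    have h1 : Tendsto (fun r : ℕ => (α : ℝ) * r + β) atTop atTop :=
      tendsto_atTop_add_const_right _ _ (hr.const_mul_atTop h0)
    refine (h1.atTop_mul_atTop₀ hr).congr fun r => ?_
    ring
  set K : ℕ → ℕ := fun r => ⌊(α : ℝ) * (r : ℝ) ^ 2 + β * r⌋₊ with hKdef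
  have hK : ∀ᶠ r : ℕ in atTop, |(K r : ℝ) - ((α : ℝ) * (r : ℝ) ^ 2 + β * r)| ≤ 1 := by
    filter_upwards [hw.eventually_ge_atTop 0] with r hr
    rw [abs_le]
    constructor
    · have := Nat.lt_floor_add_one ((α : ℝ) * (r : ℝ) ^ 2 + β * r)
      simp only [hKdef]
      linarith
    · have := Nat.floor_le hr
      simp only [hKdef]
      linarith
  have hv : Tendsto (fun r : ℕ => ((K r : ℝ) - ((α : ℝ) * (r : ℝ) ^ 2 + β * r)) * (r : ℝ)⁻¹) atTop
      (𝓝 0) := by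
    rw [tendsto_zero_iff_abs_tendsto_zero]
    refine squeeze_zero' (Eventually.of_forall fun r => abs_nonneg _) ?_ hz
    filter_upwards [hK] with r hr
    simp only [Function.comp]
    rw [abs_mul, abs_of_nonneg (by positivity : (0 : ℝ) ≤ (r : ℝ)⁻¹)]
    have : (0 : ℝ) ≤ (r : ℝ)⁻¹ := by positivity
    nlinarith
  have hpair := hv.prodMk_nhds hz
  -- the second root
  have c2 : Tendsto (fun r : ℕ => (K r : ℝ) / (α * (r + x1)) - r) atTop
      (𝓝 ((β - α * x1) / α)) := by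
    have hc : ContinuousAt (fun p : ℝ × ℝ => (β - α * x1 + p.1) /
        (α * (1 + x1 * p.2))) (0, 0) :=
      ContinuousAt.div (by fun_prop) (by fun_prop) (by simpa using h0.ne')
    have := hc.tendsto.comp hpair
    simp only [mul_zero, add_zero, mul_one] at this
    refine this.congr' ?_
    filter_upwards [eventually_gt_atTop 0, hr.eventually_gt_atTop (|(x1 : ℝ)|)] with r hr0 hr1
    have r0 : (0 : ℝ) < r := by exact_mod_cast hr0
    have y10 : (0 : ℝ) < r + x1 := by linarith [(abs_lt.1 hr1).1]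
    simp only [Function.comp]
    rw [show (β - α * x1 + ((K r : ℝ) - ((α : ℝ) * (r : ℝ) ^ 2 + β * r)) * (r : ℝ)⁻¹) =
      ((K r : ℝ) - α * (r : ℝ) ^ 2 - α * x1 * r) / r by field_simp; ring,
      show ((α : ℝ) * (1 + x1 * (r : ℝ)⁻¹)) = (α * (r + x1)) / r by field_simp,
      div_div_div_cancel_right₀ r0.ne', div_sub' (by positivity)]
    congr 1
    ring
  have c1 : Tendsto (fun r : ℕ => (α : ℝ) * (x1 + ((K r : ℝ) / (α * (r + x1)) - r))) atTop
      (𝓝 β) := by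
    have := (c2.const_add (x1 : ℝ)).const_mul (α : ℝ)
    have e : (α : ℝ) * (x1 + (β - α * x1) / α) = β := by field_simp; ring
    rwa [e] at this
  have c3 : Tendsto (fun r : ℕ => (α : ℝ) * x1 * ((K r : ℝ) / (α * (r + x1)) - r)) atTop
      (𝓝 (x1 * (β - α * x1))) := by
    have := c2.const_mul ((α : ℝ) * x1)
    have e : (α : ℝ) * x1 * ((β - α * x1) / α) = x1 * (β - α * x1) := by field_simp
    rwa [e] at this
  have hlt : (β - α * x1) / α < x1 := by
    rw [div_lt_iff₀ h0]; linarith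
  obtain ⟨r, a1, a2, a3, a4, a5, a6⟩ := ((hw.eventually_ge_atTop 1).and
    ((c1.eventually hV).and ((c2.eventually (gt_mem_nhds hlt)).and
      ((c3.eventually (Ioo_mem_nhds hx2 hx3)).and ((hr.eventually_gt_atTop (|(x1 : ℝ)|)).and
        (eventually_gt_atTop 0)))))).exists
  have r0 : (0 : ℝ) < r := by exact_mod_cast a6
  have hx := abs_lt.1 a5
  have K0 : 0 < K r := Nat.floor_pos.2 a1
  have K0' : (0 : ℝ) < K r := by exact_mod_cast K0
  have y10 : (0 : ℝ) < r + x1 := by linarith [hx.1]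
  refine ⟨_, a2, ?_⟩
  have ey : (((K r : ℚ) / (α * (r + x1)) : ℚ) : ℝ) =
      (K r : ℝ) / (α * (r + x1)) := by push_cast; rfl
  have ey1 : (((r : ℚ) + x1 : ℚ) : ℝ) = (r : ℝ) + x1 := by push_cast; rfl
  refine split_of _ _ γ₁ γ₂ (K r) r ((r : ℚ) + x1) ((K r : ℚ) / (α * (r + x1)))
    K0 ?_ ?_ ?_ ?_ ?_ ?_ ?_
  · have : (0 : ℝ) < (((r : ℚ) + x1 : ℚ) : ℝ) := by rw [ey1]; exact y10
    exact_mod_cast this
  · have : (0 : ℝ) < (((K r : ℚ) / (α * (r + x1)) : ℚ) : ℝ) := by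
      rw [ey]; positivity
    exact_mod_cast this
  · have : (((K r : ℚ) / (α * (r + x1)) : ℚ) : ℝ) < (((r : ℚ) + x1 : ℚ) : ℝ) := by
      rw [ey, ey1]; linarith
    exact_mod_cast this
  · rw [ey, ey1]
    field_simp
  · rw [ey, ey1]
    ring
  · rw [ey, ey1]
    have := a4.1
    rwa [show (r : ℝ) + x1 - r = x1 by ring]
  · rw [ey, ey1]
    have := a4.2
    rwa [show (r : ℝ) + x1 - r = x1 by ring]

end Pool.Agent.H62.EK
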