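import Pool.Agent.H62.EK.Near

/-!
# The category argument
-/

namespace Pool.Agent.H62.EK
open Filter Topology

/-- If good points are dense in an open set `Ω`, and `P k` holds near each good point, then all `P k`
hold for all points of `Ω` outside a meager set. -/
lemma generic {T : Type*} [TopologicalSpace T] (Ω : Set T) (hΩ : IsOpen Ω) (P : ℕ → T → Prop)
    (good : T → Prop)
    (h1 : ∀ V : Set T, IsOpen V → V.Nonempty → V ⊆ Ω → ∃ z ∈ V, good z)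
    (h2 : ∀ z, good z → ∀ k : ℕ, ∀ᶠ p in 𝓝 z, P k p) :
    ∀ᶠ p in residual T, p ∈ Ω → ∀ k : ℕ, P k p := by
  have key : ∀ k : ℕ, ∀ᶠ p in residual T, p ∈ Ω → P k p := by
    intro k
    refine mem_of_superset (residual_of_dense_open isOpen_interior ?_) interior_subset
    refine fun z => mem_closure_iff.2 fun U hU hz => ?_
    by_cases hne : (U ∩ Ω).Nonempty
    · obtain ⟨w, hw, hg⟩ := h1 (U ∩ Ω) (hU.inter hΩ) hne Set.inter_subset_right
      refine ⟨w, hw.1, mem_interior_iff_mem_nhds.2 ?_⟩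
      exact mem_of_superset (h2 w hg k) fun p hp _ => hp
    · refine ⟨z, hz, mem_interior_iff_mem_nhds.2 ?_⟩
      exact mem_of_superset (hU.mem_nhds hz) fun p hp hpΩ => (hne ⟨p, hp, hpΩ⟩).elim
  filter_upwards [eventually_countable_forall.2 key] with p hp hpΩ k
  exact hp k hpΩ

lemma not_isBigO {η : ℕ → ℝ} {Φ : ℕ → ℕ} (hΦ : ∀ K, K ≤ Φ K) {α β γ : ℝ}
    (h : Fails η Φ α β γ) : ¬ ((fun N => dK α β γ N) =O[atTop] η) := by
  intro hO
  obtain ⟨C, hC⟩ := hO.bound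
  obtain ⟨N0, hN0⟩ := eventually_atTop.1 hC
  obtain ⟨k, hk⟩ := exists_nat_ge (max C N0)
  obtain ⟨N, n1, n2⟩ := h k
  have n3 := (n2 N le_rfl (hΦ N)).1
  have k1 : N0 ≤ k := by exact_mod_cast (le_max_right _ _).trans hk
  have := hN0 N (k1.trans n1)
  rw [Real.norm_eq_abs, Real.norm_eq_abs] at this
  have := le_abs_self (dK α β γ N)
  have := mul_le_mul_of_nonneg_right ((le_max_left _ _).trans hk) (abs_nonneg (η N))
  linarith

/-- near a split pair the failure is visible on arbitrarily long ranges of `N` -/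
lemma near_range (α₀ β₀ γ₁ γ₂ : ℝ) (h : Split α₀ β₀ γ₁ γ₂) (η : ℕ → ℝ)
    (hη : Tendsto η atTop (𝓝 0)) (Φ : ℕ → ℕ) (k : ℕ) : ∀ᶠ p : ℝ × ℝ in 𝓝 (α₀, β₀), ∀ γ : ℝ,
      γ₁ ≤ γ → γ ≤ γ₂ → ∃ K ≥ k, ∀ N, K ≤ N → N ≤ Φ K →
      k * |η N| < dK p.1 p.2 γ N ∧ k * |η N| * N < rich p.1 p.2 γ (2 - 1 / (k + 2)) N := by
  obtain ⟨c, hc, hM⟩ := near_count α₀ β₀ γ₁ γ₂ h
  have t2 : Tendsto (fun N : ℕ => (k : ℝ) * |η N|) atTop (𝓝 0) := by
    simpa using (hη.abs).const_mul (k : ℝ)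
  have hk0 : (0 : ℝ) ≤ k := by positivity
  have e1 := hM (1 / (k + 2)) (by positivity) (by rw [div_lt_one (by positivity)]; linarith)
  have e2 := hM (1 / 2) (by norm_num) (by norm_num)
  have e4 : ∀ᶠ N : ℕ in atTop, ∀ᶠ p : ℝ × ℝ in 𝓝 (α₀, β₀), ∀ γ : ℝ, γ₁ ≤ γ → γ ≤ γ₂ →
      k * |η N| < dK p.1 p.2 γ N ∧ k * |η N| * N < rich p.1 p.2 γ (2 - 1 / (k + 2)) N := by
    filter_upwards [e1, e2, t2.eventually (gt_mem_nhds (half_pos hc)), eventually_gt_atTop 0,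
      dK_ge c hc] with N h1 h2 h4 h5 h6
    have N0 : (0 : ℝ) < N := by exact_mod_cast h5
    filter_upwards [h1, h2] with p g1' g2' γ l1 l2
    have g1 := g1' γ l1 l2
    have g2 := g2' γ l1 l2
    rw [show (2 - 1 / 2 : ℝ) = 3 / 2 by norm_num] at g2
    refine ⟨h4.trans_le (h6 _ _ _ g2), ?_⟩
    nlinarith
  obtain ⟨N1, hN1⟩ := eventually_atTop.1 e4
  have hfin : ∀ᶠ p : ℝ × ℝ in 𝓝 (α₀, β₀), ∀ N ∈ Finset.Icc (max k N1) (Φ (max k N1)), ∀ γ : ℝ,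
      γ₁ ≤ γ → γ ≤ γ₂ →
      k * |η N| < dK p.1 p.2 γ N ∧ k * |η N| * N < rich p.1 p.2 γ (2 - 1 / (k + 2)) N := by
    rw [Filter.eventually_all_finset]
    intro N hN
    exact hN1 N ((le_max_right _ _).trans (Finset.mem_Icc.1 hN).1)
  filter_upwards [hfin] with p hp γ l1 l2
  exact ⟨max k N1, le_max_left _ _, fun N n1 n2 => hp N (Finset.mem_Icc.2 ⟨n1, n2⟩) γ l1 l2⟩

end Pool.Agent.H62.EK
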