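import Pool.Agent.H62.EK.Main

/-!
# Every sufficiently well approximable leading coefficient
-/

namespace Pool.Agent.H62.EK
open Filter Topology

/-- For `β ≠ 0` rational and `γ` between `0` and `1` every positive rational `a / q` is split:
along multiples of `q` the polynomial is `n (a n / q + β)`. -/
lemma split_rat (a q : ℕ) (ha : 0 < a) (hq : 0 < q) (β : ℚ) (hβ : β ≠ 0) (γ₁ γ₂ : ℝ)
    (h1 : 0 < γ₁) (h2 : γ₂ < 1) : Split ((a : ℝ) / q) β γ₁ γ₂ := by
  have p1 : (0 : ℝ) < a := by exact_mod_cast ha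
  have p2 : (0 : ℝ) < q := by exact_mod_cast hq
  have p3 : 0 < β.den := β.den_pos
  have p3' : (0 : ℝ) < β.den := by exact_mod_cast p3
  have eβ : (β : ℝ) = β.num / β.den := Rat.cast_def β
  set e := β.den with he
  set b := β.num with hb
  have hb0 : b ≠ 0 := Rat.num_ne_zero.2 hβ
  -- `r = q e t` with `t` large
  obtain ⟨t, ht⟩ : ∃ t : ℕ, (b.natAbs : ℤ) < t := ⟨b.natAbs + 1, by push_cast; omega⟩
  have ht0 : 0 < t := by omega
  have hK0 : 0 < (q * t : ℤ) * (a * (e : ℤ) ^ 2 * t + b) := by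
    have h3 : (t : ℤ) ≤ a * (e : ℤ) ^ 2 * t := by
      have h4 : (1 : ℤ) ≤ a * (e : ℤ) ^ 2 := by
        have : 0 < a * e ^ 2 := by positivity
        exact_mod_cast this
      nlinarith
    have h5 : -(b.natAbs : ℤ) ≤ b := by omega
    have h6 : (0 : ℤ) < q * t := by exact_mod_cast Nat.mul_pos hq ht0
    exact mul_pos h6 (by linarith)
  obtain ⟨K, hK⟩ : ∃ K : ℕ, (K : ℤ) = (q * t : ℤ) * (a * (e : ℤ) ^ 2 * t + b) :=
    ⟨_, Int.toNat_of_nonneg hK0.le⟩
  have hKR : (K : ℝ) = (q * t : ℝ) * (a * (e : ℝ) ^ 2 * t + b) := by exact_mod_cast hK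
  have hKp : 0 < K := by omega
  set r := q * e * t with hr
  have hrR : (r : ℝ) = q * e * t := by rw [hr]; push_cast; ring
  have hr0 : 0 < r := by positivity
  have hr0' : (0 : ℝ) < r := by exact_mod_cast hr0
  -- the second root is `r + q β / a`
  have hy2 : (0 : ℝ) < r + q * β / a := by
    have hK0' : (0 : ℝ) < K := by exact_mod_cast hKp
    have : (a : ℝ) / q * r * (r + q * β / a) = K := by
      rw [hKR, hrR, eβ]; field_simp
    rw [← this] at hK0'
    exact (mul_pos_iff_of_pos_left (by positivity)).1 hK0'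
  have hs : ∀ y1 y2 : ℚ, 0 < y1 → 0 < y2 → y2 < y1 → (y1 : ℝ) * y2 = r * (r + q * β / a) →
      (y1 : ℝ) + y2 = r + (r + q * β / a) → Split ((a : ℝ) / q) β γ₁ γ₂ := by
    intro y1 y2 g1 g2 g3 g4 g5
    refine split_of _ _ γ₁ γ₂ K r y1 y2 hKp g1 g2 g3 ?_ ?_ ?_ ?_
    · rw [mul_assoc, g4, hKR, hrR, eβ]; field_simp
    · rw [g5]; field_simp; ring
    · have : (a : ℝ) / q * (y1 - r) * (y2 - r) = 0 := by
        have : ((y1 : ℝ) - r) * (y2 - r) = y1 * y2 - r * (y1 + y2) + r ^ 2 := by ring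
        rw [mul_assoc, this, g4, g5]; ring
      rw [this]; linarith
    · have : (a : ℝ) / q * (y1 - r) * (y2 - r) = 0 := by
        have : ((y1 : ℝ) - r) * (y2 - r) = y1 * y2 - r * (y1 + y2) + r ^ 2 := by ring
        rw [mul_assoc, this, g4, g5]; ring
      rw [this]; exact h1
  have q1 : (0 : ℚ) < r := by exact_mod_cast hr0
  have q2 : (0 : ℚ) < r + q * β / a := by exact_mod_cast hy2
  rcases lt_or_gt_of_ne hβ with hneg | hpos
  · refine hs r (r + q * β / a) q1 q2 ?_ (by push_cast; ring) (by push_cast; ring)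
    have : (q : ℚ) * β / a < 0 :=
      div_neg_of_neg_of_pos (mul_neg_of_pos_of_neg (by exact_mod_cast hq) hneg)
        (by exact_mod_cast ha)
    linarith
  · refine hs (r + q * β / a) r q2 q1 ?_ (by push_cast; ring) (by push_cast; ring)
    have : 0 < (q : ℚ) * β / a := by
      have : (0 : ℚ) < q := by exact_mod_cast hq
      have : (0 : ℚ) < a := by exact_mod_cast ha
      positivity
    linarith

lemma exists_radius (η : ℕ → ℝ) (hη : Tendsto η atTop (𝓝 0)) (Φ : ℕ → ℕ) (q a : ℕ) (b : ℤ)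
    (j k : ℕ) : ∃ ρ : ℝ, 0 < ρ ∧ (0 < q → 0 < a → b ≠ 0 → ∀ α β : ℝ, |α - a / q| < ρ →
      |β - b / q| < ρ → Part η Φ (1 / (j + 2)) (1 - 1 / (j + 2)) k α β) := by
  by_cases h : 0 < q ∧ 0 < a ∧ b ≠ 0
  · obtain ⟨hq, ha, hb⟩ := h
    have hj : (0 : ℝ) < 1 / (j + 2) := by positivity
    have hβ : (b : ℚ) / q ≠ 0 :=
      div_ne_zero (by exact_mod_cast hb) (by exact_mod_cast hq.ne')
    have h1 := near_range _ _ _ _ (split_rat a q ha hq ((b : ℚ) / q) hβ (1 / ((j : ℝ) + 2))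
      (1 - 1 / ((j : ℝ) + 2)) hj (by linarith)) η hη Φ k
    obtain ⟨ρ, hρ, h3⟩ := Metric.eventually_nhds_iff.1 h1
    refine ⟨ρ, hρ, fun _ _ _ α β hα hβ' => ?_⟩
    refine h3 (y := (α, β)) ?_
    rw [Prod.dist_eq, Real.dist_eq, Real.dist_eq]
    refine max_lt hα ?_
    push_cast
    exact hβ'
  · exact ⟨1, one_pos, fun h1 h2 h3 => (h ⟨h1, h2, h3⟩).elim⟩

/-- Every pair `α > 0`, `β ≠ 0` with infinitely many simultaneous rational approximations of
quality `Ψ` is bad, for every `0 < γ < 1`. -/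
lemma liouville (η : ℕ → ℝ) (hη : Tendsto η atTop (𝓝 0)) (Φ : ℕ → ℕ) :
    ∃ Ψ : ℕ → ℝ, (∀ q, 0 < Ψ q) ∧ ∀ α β : ℝ, 0 < α → β ≠ 0 →
      (∃ᶠ q : ℕ in atTop, ∃ (a : ℕ) (b : ℤ), |α - a / q| < Ψ q ∧ |β - b / q| < Ψ q) →
      ∀ γ : ℝ, 0 < γ → γ < 1 → Fails η Φ α β γ := by
  choose ρ hρ0 hρ using fun (q a : ℕ) (b : ℤ) (j k : ℕ) => exists_radius η hη Φ q a b j k
  have hΨ : ∀ q : ℕ, ∃ r : ℝ, 0 < r ∧ r < 1 / (q + 1) ∧ ∀ a ∈ Finset.range (q ^ 2 + 1),
      ∀ b ∈ Finset.Icc (-(q : ℤ) ^ 2) ((q : ℤ) ^ 2), ∀ j ∈ Finset.range (q + 1),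
        ∀ k ∈ Finset.range (q + 1), r < ρ q a b j k := by
    intro q
    have hall : ∀ᶠ r : ℝ in 𝓝[>] 0, 0 < r ∧ r < 1 / (q + 1) ∧ ∀ a ∈ Finset.range (q ^ 2 + 1),
        ∀ b ∈ Finset.Icc (-(q : ℤ) ^ 2) ((q : ℤ) ^ 2), ∀ j ∈ Finset.range (q + 1),
          ∀ k ∈ Finset.range (q + 1), r < ρ q a b j k := by
      refine (eventually_mem_nhdsWithin).and (Filter.Eventually.and ?_ ?_)
      · exact mem_nhdsWithin_of_mem_nhds (Iio_mem_nhds (by positivity))
      · simp only [Filter.eventually_all_finset]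
        intro a _ i _ j _ k _
        exact mem_nhdsWithin_of_mem_nhds (Iio_mem_nhds (hρ0 _ _ _ _ _))
    exact hall.exists
  choose Ψ h0 h1 h2 using hΨ
  refine ⟨Ψ, h0, fun α β hα hβ hfr γ hγ0 hγ1 k => ?_⟩
  obtain ⟨j, hj⟩ := exists_nat_one_div_lt (lt_min hγ0 (sub_pos.2 hγ1))
  obtain ⟨j1, j2⟩ := lt_min_iff.1 hj
  obtain ⟨m, hm⟩ := exists_nat_gt (α + |β| + 1)
  obtain ⟨m', hm'⟩ := exists_nat_gt (1 / α)
  have hβ0 : 0 < |β| := abs_pos.2 hβ
  obtain ⟨m'', hm''⟩ := exists_nat_gt (1 / |β|)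
  obtain ⟨q, ⟨a, b, ha, hb⟩, hq⟩ := (hfr.and_eventually
    (eventually_ge_atTop (j + k + m + m' + m'' + 1))).exists
  have hq0 : 0 < q := by omega
  have q0 : (0 : ℝ) < q := by exact_mod_cast hq0
  have hΨq := h1 q
  have hqm : (m : ℝ) ≤ q := by exact_mod_cast (by omega : m ≤ q)
  have hqm' : (m' : ℝ) ≤ q := by exact_mod_cast (by omega : m' ≤ q)
  have hqm'' : (m'' : ℝ) ≤ q := by exact_mod_cast (by omega : m'' ≤ q)
  have hlt1 : 1 / ((q : ℝ) + 1) < 1 := by rw [div_lt_one (by positivity)]; linarith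
  have hab := abs_lt.1 ha
  have hbb := abs_lt.1 hb
  have ha0 : 0 < a := by
    rcases Nat.eq_zero_or_pos a with rfl | h
    · exfalso
      have h3 : α < 1 / (q + 1) := by
        have := hab.2
        simp at this
        linarith
      rw [lt_div_iff₀ (by positivity)] at h3
      rw [div_lt_iff₀ hα] at hm'
      nlinarith
    · exact h
  have hb0 : b ≠ 0 := by
    rintro rfl
    have h3 : |β| < 1 / (q + 1) := by
      simp at hb
      linarith
    rw [lt_div_iff₀ (by positivity)] at h3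
    rw [div_lt_iff₀ hβ0] at hm''
    nlinarith
  have haq : a ≤ q ^ 2 := by
    have h3 : (a : ℝ) / q < q := by linarith [hab.1]
    rw [div_lt_iff₀ q0] at h3
    have : (a : ℝ) ≤ (q : ℝ) ^ 2 := by nlinarith
    exact_mod_cast this
  have hbq : |(b : ℝ)| ≤ (q : ℝ) ^ 2 := by
    have h3 : |(b : ℝ) / q| < q := by
      have h4 : |(b : ℝ) / q| ≤ |β| + |β - b / q| := by
        have := abs_sub_abs_le_abs_sub ((b : ℝ) / q) β
        rw [abs_sub_comm] at this
        linarith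
      linarith
    rw [abs_div, abs_of_pos q0, div_lt_iff₀ q0] at h3
    nlinarith
  have hbq' := abs_le.1 hbq
  have hbmem : b ∈ Finset.Icc (-(q : ℤ) ^ 2) ((q : ℤ) ^ 2) := by
    rw [Finset.mem_Icc]
    constructor
    · exact_mod_cast hbq'.1
    · exact_mod_cast hbq'.2
  have h4 := h2 q a (Finset.mem_range.2 (by omega)) b hbmem j
    (Finset.mem_range.2 (by omega)) k (Finset.mem_range.2 (by omega))
  have hle : 1 / ((j : ℝ) + 2) ≤ 1 / (j + 1) := by
    apply one_div_le_one_div_of_le <;> [positivity; linarith]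
  exact hρ q a b j k hq0 ha0 hb0 α β (ha.trans h4) (hb.trans h4) γ (by linarith) (by linarith)

end Pool.Agent.H62.EK
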