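import Pool.Agent.H62.EK.Dens2

/-!
# Generic failure of every Erdős–Kac rate, for all constant terms at once
-/

namespace Pool.Agent.H62.EK
open Filter Topology

/-- the statement for one `k` and all `γ` in `[γ₁, γ₂]` -/
def Part (η : ℕ → ℝ) (Φ : ℕ → ℕ) (γ₁ γ₂ : ℝ) (k : ℕ) (α β : ℝ) : Prop :=
  ∀ γ : ℝ, γ₁ ≤ γ → γ ≤ γ₂ → ∃ K ≥ k, ∀ N, K ≤ N → N ≤ Φ K →
    k * |η N| < dK α β γ N ∧ k * |η N| * N < rich α β γ (2 - 1 / (k + 2)) N

lemma fails_of_part (η : ℕ → ℝ) (Φ : ℕ → ℕ) (α β : ℝ)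
    (h : ∀ c d : ℚ, (d : ℝ) < c + 1 → Dips α β d → ∀ k : ℕ, Part η Φ c d k α β) (γ : ℝ)
    (hγ : Dips α β γ) : Fails η Φ α β γ := by
  obtain ⟨h0, h1⟩ := hγ
  have h2 : γ < 1 + β ^ 2 / (4 * α) := by
    have : γ - 1 < β ^ 2 / (4 * α) := by rw [lt_div_iff₀ (by positivity)]; linarith
    linarith
  obtain ⟨d, d1, d2⟩ := exists_rat_btwn (lt_min h2 (show γ < γ + 1 / 2 by linarith))
  obtain ⟨d3, d4⟩ := lt_min_iff.1 d2
  obtain ⟨c, c1, c2⟩ := exists_rat_btwn (show γ - 1 / 2 < γ by linarith)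
  have hd : Dips α β d := by
    refine ⟨h0, ?_⟩
    have : (d : ℝ) - 1 < β ^ 2 / (4 * α) := by linarith
    rw [lt_div_iff₀ (by positivity)] at this
    linarith
  intro k
  exact h c d (by linarith) hd k γ c2.le d1.le

lemma isOpen_dips (d : ℝ) : IsOpen {p : ℝ × ℝ | Dips p.1 p.2 d} := by
  have h1 : IsOpen {p : ℝ × ℝ | 0 < p.1} := isOpen_lt continuous_const continuous_fst
  have h2 : IsOpen {p : ℝ × ℝ | 4 * p.1 * (d - 1) < p.2 ^ 2} :=
    isOpen_lt (by fun_prop) (by fun_prop)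
  exact h1.inter h2

lemma plane (η : ℕ → ℝ) (hη : Tendsto η atTop (𝓝 0)) (Φ : ℕ → ℕ) :
    ∀ᶠ p : ℝ × ℝ in residual (ℝ × ℝ), ∀ γ : ℝ, Dips p.1 p.2 γ → Fails η Φ p.1 p.2 γ := by
  have key : ∀ c d : ℚ, ∀ᶠ p : ℝ × ℝ in residual (ℝ × ℝ), (d : ℝ) < c + 1 →
      Dips p.1 p.2 d → ∀ k : ℕ, Part η Φ c d k p.1 p.2 := by
    intro c d
    by_cases hcd : (d : ℝ) < c + 1
    · have := generic {p : ℝ × ℝ | Dips p.1 p.2 d} (isOpen_dips d)
        (fun k p => Part η Φ c d k p.1 p.2) (fun z => Split z.1 z.2 c d) ?_ ?_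
      · filter_upwards [this] with p hp _ using hp
      · rintro V hV ⟨⟨a, b⟩, hab⟩ hVΩ
        -- a rational second coordinate
        have h1 : (fun y : ℝ => (a, y)) ⁻¹' V ∈ 𝓝 b :=
          (hV.preimage (by fun_prop)).mem_nhds hab
        obtain ⟨l, u, hz, hU⟩ := mem_nhds_iff_exists_Ioo_subset.1 h1
        obtain ⟨β, r1, r2⟩ := exists_rat_btwn (hz.1.trans hz.2)
        have hβ : (a, (β : ℝ)) ∈ V := hU ⟨r1, r2⟩
        have h2 : (fun x : ℝ => (x, (β : ℝ))) ⁻¹' V ∈ 𝓝 a :=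
          (hV.preimage (by fun_prop)).mem_nhds hβ
        obtain ⟨α₀, h3, h4⟩ := dense_alpha a c d β (hVΩ hβ) hcd _ h2
        exact ⟨(α₀, (β : ℝ)), h3, h4⟩
      · intro z hz k
        exact near_range z.1 z.2 c d hz η hη Φ k
    · exact Eventually.of_forall fun p h => (hcd h).elim
  filter_upwards [eventually_countable_forall.2 fun c => eventually_countable_forall.2 (key c)]
    with p hp γ hγ
  exact fails_of_part η Φ p.1 p.2 (fun c d => hp c d) γ hγ

lemma line_alpha (η : ℕ → ℝ) (hη : Tendsto η atTop (𝓝 0)) (Φ : ℕ → ℕ) :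
    ∀ᶠ α : ℝ in residual ℝ, ∀ (β : ℚ) (γ : ℝ), Dips α β γ → Fails η Φ α β γ := by
  have key : ∀ (β c d : ℚ), ∀ᶠ α : ℝ in residual ℝ, (d : ℝ) < c + 1 →
      Dips α β d → ∀ k : ℕ, Part η Φ c d k α β := by
    intro β c d
    by_cases hcd : (d : ℝ) < c + 1
    · have := generic {α : ℝ | Dips α β d}
        ((isOpen_dips d).preimage (show Continuous fun α : ℝ => (α, (β : ℝ)) by fun_prop))
        (fun k α => Part η Φ c d k α β) (fun z => Split z β c d) ?_ ?_
      · filter_upwards [this] with p hp _ using hp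
      · rintro V hV ⟨a, ha⟩ hVΩ
        obtain ⟨α₀, h3, h4⟩ := dense_alpha a c d β (hVΩ ha) hcd V (hV.mem_nhds ha)
        exact ⟨α₀, h3, h4⟩
      · intro z hz k
        exact (show Continuous fun α : ℝ => (α, (β : ℝ)) by fun_prop).continuousAt.eventually
          (near_range z β c d hz η hη Φ k)
    · exact Eventually.of_forall fun p h => (hcd h).elim
  filter_upwards [eventually_countable_forall.2 fun β =>
    eventually_countable_forall.2 fun c => eventually_countable_forall.2 (key β c)] with α hp β γ hγ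
  exact fails_of_part η Φ α β (fun c d => hp β c d) γ hγ

lemma line_beta (η : ℕ → ℝ) (hη : Tendsto η atTop (𝓝 0)) (Φ : ℕ → ℕ) :
    ∀ᶠ β : ℝ in residual ℝ, ∀ (α : ℚ) (γ : ℝ), Dips α β γ → Fails η Φ α β γ := by
  have key : ∀ (α c d : ℚ), ∀ᶠ β : ℝ in residual ℝ, (d : ℝ) < c + 1 →
      Dips α β d → ∀ k : ℕ, Part η Φ c d k α β := by
    intro α c d
    by_cases hcd : (d : ℝ) < c + 1
    · have := generic {β : ℝ | Dips α β d}
        ((isOpen_dips d).preimage (show Continuous fun β : ℝ => ((α : ℝ), β) by fun_prop))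
        (fun k β => Part η Φ c d k α β) (fun z => Split α z c d) ?_ ?_
      · filter_upwards [this] with p hp _ using hp
      · rintro V hV ⟨b, hb⟩ hVΩ
        obtain ⟨β₀, h3, h4⟩ := dense_beta b c d α (hVΩ hb) hcd V (hV.mem_nhds hb)
        exact ⟨β₀, h3, h4⟩
      · intro z hz k
        exact (show Continuous fun β : ℝ => ((α : ℝ), β) by fun_prop).continuousAt.eventually
          (near_range α z c d hz η hη Φ k)
    · exact Eventually.of_forall fun p h => (hcd h).elim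
  filter_upwards [eventually_countable_forall.2 fun α =>
    eventually_countable_forall.2 fun c => eventually_countable_forall.2 (key α c)] with β hp α γ hγ
  exact fails_of_part η Φ α β (fun c d => hp α c d) γ hγ

lemma irrational_coords : ∀ᶠ p : ℝ × ℝ in residual (ℝ × ℝ), Irrational p.1 ∧ Irrational p.2 :=
  ((tendsto_residual_of_isOpenMap continuous_fst isOpenMap_fst).eventually
    eventually_residual_irrational).and
  ((tendsto_residual_of_isOpenMap continuous_snd isOpenMap_snd).eventually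
    eventually_residual_irrational)

end Pool.Agent.H62.EK
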