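import Pool.Agent.H62.EK.A
import Pool.Agent.H62.EK.Defs

namespace Pool.Agent.H62.EK
open Finset Filter ProbabilityTheory Topology

lemma S_ge (a q M : ℕ) (ha : 0 < a) (hq : 0 < q) (hM : q ≤ M) (h2 : 2 ≤ M) :
    Real.log (Real.log (q * M : ℕ)) - (a + 7) ≤
      ∑ p ∈ ((Icc 1 M.sqrt).filter Nat.Prime).filter (fun p => ¬p ∣ a), (1 / p : ℝ) := by
  have h1 := mertens M.sqrt
  have h3 := sum_filter_add_sum_filter_not ((Icc 1 M.sqrt).filter Nat.Prime) (fun p => p ∣ a)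
    (fun p => (1 / p : ℝ))
  have h4 : ∑ p ∈ ((Icc 1 M.sqrt).filter Nat.Prime).filter (fun p => p ∣ a), (1 / p : ℝ) ≤ a := by
    refine (sum_le_card_nsmul _ _ 1 fun p hp => ?_).trans ?_
    · have : (1 : ℝ) ≤ p := by exact_mod_cast (mem_filter.1 (mem_filter.1 hp).1).2.one_le
      exact (div_le_one (by linarith)).2 this
    · have : ((Icc 1 M.sqrt).filter Nat.Prime).filter (fun p => p ∣ a) ⊆ Ioc 0 a := fun p hp =>
        mem_Ioc.2 ⟨(mem_filter.1 (mem_filter.1 hp).1).2.pos, Nat.le_of_dvd ha (mem_filter.1 hp).2⟩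
      have := card_le_card this
      simp only [Nat.card_Ioc, tsub_zero] at this
      simp only [nsmul_eq_mul, mul_one]
      exact_mod_cast this
  have h5 : Real.log (q * M : ℕ) ≤ 4 * Real.log (M.sqrt + 1) := by
    have e : (4 : ℝ) * Real.log (M.sqrt + 1) = Real.log (((M.sqrt + 1) ^ 4 : ℕ) : ℝ) := by
      push_cast; rw [Real.log_pow]; norm_num
    rw [e]
    refine Real.log_le_log (by positivity) (Nat.cast_le.2 ?_)
    have := (Nat.lt_succ_sqrt' M).le
    calc q * M ≤ M * M := by gcongr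
      _ ≤ (M.sqrt + 1) ^ 2 * (M.sqrt + 1) ^ 2 := by gcongr
      _ = _ := by ring
  have h6 : 0 < Real.log (q * M : ℕ) :=
    Real.log_pos (by exact_mod_cast (by nlinarith : 1 < q * M))
  have h7 : Real.log (Real.log (q * M : ℕ)) ≤
      7 + ∑ p ∈ (Icc 1 M.sqrt).filter Nat.Prime, (1 / p : ℝ) := by
    rw [Real.log_le_iff_le_exp h6, Real.exp_add]
    have := Real.add_one_le_exp 7
    have := Real.exp_pos (∑ p ∈ (Icc 1 M.sqrt).filter Nat.Prime, (1 / p : ℝ))
    nlinarith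
  linarith

/-- Chebyshev's inequality with a free parameter. -/
lemma cheb' (a b M y : ℕ) (P : Finset ℕ) (hP : ∀ p ∈ P, p.Prime ∧ p ≤ y ∧ Nat.Coprime a p)
    (hy : y ^ 2 ≤ M) (δ : ℝ) (hδ : 0 < δ) (hS0 : 0 < ∑ p ∈ P, (1 / p : ℝ))
    (hS : ∑ p ∈ P, (1 / p : ℝ) + 4 ≤ (δ * ∑ p ∈ P, (1 / p : ℝ)) ^ 2 / 4) :
    (#{m ∈ Ioc 0 M | (#{p ∈ P | p ∣ a * m + b} : ℝ) ≤ (1 - δ) * ∑ p ∈ P, (1 / p : ℝ)} : ℝ) ≤
      M / 4 := by
  have h := turan a b M y P hP hy
  set S := ∑ p ∈ P, (1 / p : ℝ)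
  have h2 := card_nsmul_le_sum
    {m ∈ Ioc 0 M | (#{p ∈ P | p ∣ a * m + b} : ℝ) ≤ (1 - δ) * S}
    (fun m => ((#{p ∈ P | p ∣ a * m + b} : ℝ) - S) ^ 2) ((δ * S) ^ 2) (fun m hm => by
      have := (mem_filter.1 hm).2
      have h0 : 0 < δ * S := by positivity
      nlinarith)
  have h3 := h2.trans ((sum_le_sum_of_subset_of_nonneg (filter_subset _ _)
    fun _ _ _ => by positivity).trans h)
  rw [nsmul_eq_mul] at h3
  have M0 : (0 : ℝ) ≤ M := by positivity
  have : (0 : ℝ) < (δ * S) ^ 2 := by positivity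
  refine le_of_mul_le_mul_right (h3.trans ?_) this
  nlinarith

/-- Half of the values `K (a m + 1) (c m + 1)` have almost `2 log log N` prime factors, if
`a ≠ c`. -/
lemma many (K a c q r : ℕ) (hK : 0 < K) (ha : 0 < a) (hc : 0 < c) (hac : a < c) (hq : 0 < q)
    (ε : ℝ) (hε : 0 < ε) (hε1 : ε < 1) : ∀ᶠ N : ℕ in atTop,
    (N : ℝ) / (4 * q) ≤ #{m ∈ Ioc 0 ((N - r) / q) | (2 - ε) * Real.log (Real.log N) <
      ((K * ((a * m + 1) * (c * m + 1))).primeFactors.card : ℝ)} := by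
  set D : ℕ := a * c * (c - a) with hD
  have hD0 : 0 < D := by
    have : 0 < c - a := by omega
    positivity
  have t : Tendsto (fun N : ℕ => Real.log (Real.log N)) atTop atTop :=
    Real.tendsto_log_atTop.comp (Real.tendsto_log_atTop.comp tendsto_natCast_atTop_atTop)
  filter_upwards [eventually_ge_atTop (q * (2 * q + r + 2) + r),
    t.eventually_ge_atTop (4 * (D + 7) / ε + (D + 7) + 4 + 4 * (8 / ε) ^ 2)] with N h1 h3
  set M := (N - r) / q with hM
  have hM1 : 2 * q + r + 2 ≤ M := by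
    rw [hM, Nat.le_div_iff_mul_le hq, mul_comm]; omega
  have hN2 : N ≤ q * M + q + r := by
    have := Nat.lt_mul_div_succ (N - r) hq
    rw [← hM] at this
    have e : q * (M + 1) = q * M + q := by ring
    rw [e] at this
    omega
  have hN1 : 2 ≤ N := by nlinarith
  have hNM : N ≤ (2 * q + r) * M := by nlinarith
  have hS := S_ge D (2 * q + r) M hD0 (by omega) (by omega) (by omega)
  have hLL : Real.log (Real.log N) ≤ Real.log (Real.log ((2 * q + r) * M : ℕ)) := by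
    refine Real.log_le_log (Real.log_pos (by exact_mod_cast (by omega : 1 < N))) ?_
    exact Real.log_le_log (by exact_mod_cast (by omega)) (by exact_mod_cast hNM)
  set L := Real.log (Real.log N)
  set P := ((Icc 1 M.sqrt).filter Nat.Prime).filter (fun p => ¬p ∣ D) with hP
  set S := ∑ p ∈ P, (1 / p : ℝ)
  have a0 : (0 : ℝ) ≤ D := by positivity
  have hSL : L - (D + 7) ≤ S := by linarith
  have hb1 : 0 ≤ 4 * (D + 7) / ε := by positivity
  have hb2 : 0 ≤ 4 * (8 / ε) ^ 2 := by positivity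
  have S4 : 4 + 4 * (8 / ε) ^ 2 ≤ S := by linarith
  have S0 : 0 < S := by linarith
  set δ := ε / 4 with hδ
  have hδ0 : 0 < δ := by rw [hδ]; positivity
  have hSδ : S + 4 ≤ (δ * S) ^ 2 / 4 := by
    have e1 : S + 4 ≤ 2 * S := by linarith
    have e2 : 4 * (8 / ε) ^ 2 * S ≤ S * S := by nlinarith
    have e3 : (δ * S) ^ 2 / 4 = ε ^ 2 / 64 * (S * S) := by rw [hδ]; ring
    have e4 : ε ^ 2 / 64 * (4 * (8 / ε) ^ 2 * S) = 4 * S := by field_simp; ring
    rw [e3]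
    have e5 : ε ^ 2 / 64 * (4 * (8 / ε) ^ 2 * S) ≤ ε ^ 2 / 64 * (S * S) :=
      mul_le_mul_of_nonneg_left e2 (by positivity)
    linarith
  have key : (2 - ε) * L < 2 * (1 - δ) * S := by
    have e1 : 4 * (D + 7) ≤ ε * L := by
      have e2 : 4 * (D + 7) / ε ≤ L := by linarith
      rw [div_le_iff₀ hε] at e2
      linarith
    have e3 : (2 - ε / 2) * (L - (D + 7)) ≤ (2 - ε / 2) * S :=
      mul_le_mul_of_nonneg_left hSL (by linarith)
    have e4 : 2 * (1 - δ) * S = (2 - ε / 2) * S := by rw [hδ]; ring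
    rw [e4]
    have e5 : 0 < ε * (D + 7) := by positivity
    nlinarith
  have pr : ∀ p ∈ P, p.Prime ∧ p ≤ M.sqrt := fun p hp =>
    ⟨(mem_filter.1 (mem_filter.1 hp).1).2, (mem_Icc.1 (mem_filter.1 (mem_filter.1 hp).1).1).2⟩
  have nd : ∀ p ∈ P, ¬ p ∣ D := fun p hp => (mem_filter.1 hp).2
  have nda : ∀ p ∈ P, ¬ p ∣ a := fun p hp h =>
    nd p hp (Dvd.dvd.mul_right (Dvd.dvd.mul_right h _) _)
  have ndc : ∀ p ∈ P, ¬ p ∣ c := fun p hp h =>
    nd p hp (Dvd.dvd.mul_right (Dvd.dvd.mul_left h _) _)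
  have c1 := cheb' a 1 M M.sqrt P (fun p hp => ⟨(pr p hp).1, (pr p hp).2,
    ((Nat.Prime.coprime_iff_not_dvd (pr p hp).1).2 (nda p hp)).symm⟩) (Nat.sqrt_le' M) δ hδ0 S0 hSδ
  have c2 := cheb' c 1 M M.sqrt P (fun p hp => ⟨(pr p hp).1, (pr p hp).2,
    ((Nat.Prime.coprime_iff_not_dvd (pr p hp).1).2 (ndc p hp)).symm⟩) (Nat.sqrt_le' M) δ hδ0 S0 hSδ
  have sub : Ioc 0 M ⊆ {m ∈ Ioc 0 M |
      (2 - ε) * L < ((K * ((a * m + 1) * (c * m + 1))).primeFactors.card : ℝ)}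
      ∪ ({m ∈ Ioc 0 M | (#{p ∈ P | p ∣ a * m + 1} : ℝ) ≤ (1 - δ) * S} ∪
        {m ∈ Ioc 0 M | (#{p ∈ P | p ∣ c * m + 1} : ℝ) ≤ (1 - δ) * S}) := by
    intro m hm
    by_contra hc
    simp only [mem_union, mem_filter, hm, true_and, not_or, not_lt, not_le] at hc
    obtain ⟨b1, b2, b3⟩ := hc
    have m0 : 0 < m := (mem_Ioc.1 hm).1
    have : #{p ∈ P | p ∣ a * m + 1} + #{p ∈ P | p ∣ c * m + 1} ≤
        (K * ((a * m + 1) * (c * m + 1))).primeFactors.card := by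
      rw [← card_union_of_disjoint]
      · refine card_le_card fun p hp => ?_
        rcases mem_union.1 hp with hp | hp
        · obtain ⟨p1, p2⟩ := mem_filter.1 hp
          exact Nat.mem_primeFactors.2 ⟨(pr p p1).1,
            Dvd.dvd.mul_left (Dvd.dvd.mul_right p2 _) _, by positivity⟩
        · obtain ⟨p1, p2⟩ := mem_filter.1 hp
          exact Nat.mem_primeFactors.2 ⟨(pr p p1).1,
            Dvd.dvd.mul_left (Dvd.dvd.mul_left p2 _) _, by positivity⟩
      · refine disjoint_left.2 fun p h1 h2 => ?_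
        rw [mem_filter] at h1 h2
        have e : c * m + 1 = (a * m + 1) + (c - a) * m := by
          have : c = a + (c - a) := by omega
          generalize c - a = e at *
          subst this; ring
        have d1 : p ∣ (c - a) * m := by
          have := h2.2
          rw [e] at this
          exact (Nat.dvd_add_right h1.2).1 this
        rcases (pr p h1.1).1.dvd_mul.1 d1 with d2 | d2
        · exact nd p h1.1 (Dvd.dvd.mul_left d2 _)
        · exact (pr p h1.1).1.one_lt.ne'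
            (Nat.dvd_one.1 ((Nat.dvd_add_right (Dvd.dvd.mul_left d2 a)).1 h1.2))
    have : (#{p ∈ P | p ∣ a * m + 1} : ℝ) + #{p ∈ P | p ∣ c * m + 1} ≤
        (K * ((a * m + 1) * (c * m + 1))).primeFactors.card := by exact_mod_cast this
    linarith
  have := (card_le_card sub).trans ((card_union_le _ _).trans
    (Nat.add_le_add_left (card_union_le _ _) _))
  rw [Nat.card_Ioc, tsub_zero] at this
  have := (Nat.cast_le (α := ℝ)).2 this
  push_cast at this
  have q0 : (0 : ℝ) < q := by exact_mod_cast hq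
  have hfin : (N : ℝ) / (4 * q) ≤ (M : ℝ) / 2 := by
    rw [div_le_div_iff₀ (by positivity) (by norm_num)]
    have : N ≤ 2 * (q * M) := by nlinarith
    have : (N : ℝ) ≤ 2 * (q * M) := by exact_mod_cast this
    nlinarith
  linarith

/-- The arithmetic input: along `n = q m + r` the polynomial `α₀ n² + β₀ n + s`, with
`γ₂ - 1 < s < γ₁`, is `K (a m + 1) (c m + 1)`. -/
def Split (α₀ β₀ γ₁ γ₂ : ℝ) : Prop :=
  ∃ (K a c q r : ℕ) (s : ℝ), 0 < K ∧ 0 < a ∧ 0 < c ∧ a < c ∧ 0 < q ∧ γ₂ - 1 < s ∧ s < γ₁ ∧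
    ∀ m : ℕ, α₀ * ((q * m + r : ℕ) : ℝ) ^ 2 + β₀ * ((q * m + r : ℕ) : ℝ) + s =
      ((K * ((a * m + 1) * (c * m + 1)) : ℕ) : ℝ)

/-- For a split pair `(α₀, β₀)` and all large `N`, for all pairs close to `(α₀, β₀)` (in terms of
`N`), many of the `n ≤ N` have almost `2 log log N` prime factors. -/
lemma near_count (α₀ β₀ γ₁ γ₂ : ℝ) (h : Split α₀ β₀ γ₁ γ₂) : ∃ c : ℝ, 0 < c ∧
    ∀ ε : ℝ, 0 < ε → ε < 1 → ∀ᶠ N : ℕ in atTop, ∀ᶠ p : ℝ × ℝ in 𝓝 (α₀, β₀), ∀ γ : ℝ,
      γ₁ ≤ γ → γ ≤ γ₂ → c * N ≤ rich p.1 p.2 γ (2 - ε) N := by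
  classical
  obtain ⟨K, a, c, q, r, s, hK, ha, hc, hac, hq, hs1, hs2, hf⟩ := h
  have q0 : (0 : ℝ) < q := by exact_mod_cast hq
  refine ⟨1 / (4 * q), by positivity, fun ε hε hε1 => ?_⟩
  filter_upwards [many K a c q r hK ha hc hac hq ε hε hε1, eventually_ge_atTop (r + 1)]
    with N hN hrN
  set M := (N - r) / q with hM
  have hMN : ∀ m ≤ M, q * m + r ≤ N := by
    intro m hm
    have h1 : q * m ≤ q * M := Nat.mul_le_mul_left _ hm
    have h2 : q * M ≤ N - r := Nat.mul_div_le _ _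
    omega
  have hpert : ∀ᶠ p : ℝ × ℝ in 𝓝 (α₀, β₀),
      |p.1 - α₀| * (N : ℝ) ^ 2 + |p.2 - β₀| * N < min (γ₁ - s) (s + 1 - γ₂) := by
    have hcont : Continuous fun p : ℝ × ℝ => |p.1 - α₀| * (N : ℝ) ^ 2 + |p.2 - β₀| * N := by
      fun_prop
    have := hcont.tendsto (α₀, β₀)
    simp only [sub_self, abs_zero, zero_mul, add_zero] at this
    exact this.eventually (gt_mem_nhds (lt_min (by linarith) (by linarith)))
  filter_upwards [hpert] with p hp γ hγ1 hγ2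
  obtain ⟨hp1, hp2⟩ := lt_min_iff.1 hp
  have fl : ∀ m ∈ Ioc 0 M, ⌊p.1 * ((q * m + r : ℕ) : ℝ) ^ 2 + p.2 * ((q * m + r : ℕ) : ℝ) + γ⌋₊ =
      K * ((a * m + 1) * (c * m + 1)) := by
    intro m hm
    have m1 : ((q * m + r : ℕ) : ℝ) ≤ N := by exact_mod_cast hMN m (mem_Ioc.1 hm).2
    have m2 : ((q * m + r : ℕ) : ℝ) ^ 2 ≤ (N : ℝ) ^ 2 := by gcongr
    have n0 : (0 : ℝ) ≤ ((q * m + r : ℕ) : ℝ) := by positivity
    have hfm := hf m
    set n : ℝ := ((q * m + r : ℕ) : ℝ) with hn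
    have b : |(p.1 - α₀) * n ^ 2 + (p.2 - β₀) * n| ≤
        |p.1 - α₀| * (N : ℝ) ^ 2 + |p.2 - β₀| * N := by
      refine (abs_add_le _ _).trans ?_
      rw [abs_mul, abs_mul, abs_of_nonneg n0, abs_of_nonneg (by positivity : (0 : ℝ) ≤ n ^ 2)]
      gcongr
    have b' := abs_le.1 b
    rw [Nat.floor_eq_iff]
    · rw [← hfm]
      constructor
      · nlinarith [b'.1]
      · nlinarith [b'.2]
    · have h0 : (0 : ℝ) ≤ ((K * ((a * m + 1) * (c * m + 1)) : ℕ) : ℝ) := by positivity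
      rw [← hfm] at h0
      nlinarith [b'.1]
  have hle : #{m ∈ Ioc 0 M | (2 - ε) * Real.log (Real.log N) <
      ((K * ((a * m + 1) * (c * m + 1))).primeFactors.card : ℝ)} ≤ rich p.1 p.2 γ (2 - ε) N := by
    unfold rich
    refine card_le_card_of_injOn (fun m => q * m + r) (fun m hm => ?_)
      (fun m _ m' _ h => Nat.eq_of_mul_eq_mul_left hq (Nat.add_right_cancel h))
    simp only [coe_filter, Set.mem_ofPred_eq] at hm ⊢
    have m1 := mem_Ioc.1 hm.1
    refine ⟨mem_Icc.2 ⟨?_, hMN m m1.2⟩, ?_⟩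
    · have := Nat.mul_pos hq m1.1
      omega
    · rw [fl m hm.1]; exact hm.2
  have hle' : (#{m ∈ Ioc 0 M | (2 - ε) * Real.log (Real.log N) <
      ((K * ((a * m + 1) * (c * m + 1))).primeFactors.card : ℝ)} : ℝ) ≤
      rich p.1 p.2 γ (2 - ε) N := by exact_mod_cast hle
  calc 1 / (4 * q : ℝ) * N = N / (4 * q) := by ring
    _ ≤ _ := hN.trans hle'

/-- Many `n ≤ N` with `ω > (2 - ε) log log N` give a lower bound for the Kolmogorov distance. -/
lemma dK_ge (c : ℝ) (hc : 0 < c) : ∀ᶠ N : ℕ in atTop, ∀ α β γ : ℝ,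
    c * N ≤ rich α β γ (3 / 2) N → c / 2 ≤ dK α β γ N := by
  classical
  obtain ⟨x, hx⟩ := ((tendsto_cdf_atTop (gaussianReal 0 1)).eventually
    (lt_mem_nhds (show 1 - c / 2 < 1 by linarith))).exists
  have t : Tendsto (fun N : ℕ => √(Real.log (Real.log N))) atTop atTop :=
    Real.tendsto_sqrt_atTop.comp (Real.tendsto_log_atTop.comp
      (Real.tendsto_log_atTop.comp tendsto_natCast_atTop_atTop))
  filter_upwards [t.eventually_ge_atTop (2 * |x| + 1), eventually_gt_atTop 0] with N hN hN0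
  intro α β γ hr
  have N0 : (0 : ℝ) < N := by exact_mod_cast hN0
  have x0 := abs_nonneg x
  have s0 : 0 < √(Real.log (Real.log N)) := by linarith
  have L0 : 0 < Real.log (Real.log N) := Real.sqrt_pos.1 s0
  have sq : √(Real.log (Real.log N)) * √(Real.log (Real.log N)) = Real.log (Real.log N) :=
    Real.mul_self_sqrt L0.le
  set L := Real.log (Real.log N)
  have hle : #{n ∈ Icc 1 N | X α β γ N n ≤ x} + rich α β γ (3 / 2) N ≤ N := by
    have := card_filter_add_card_filter_not (s := Icc 1 N) (fun n => X α β γ N n ≤ x)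
    rw [Nat.card_Icc, add_tsub_cancel_right] at this
    refine le_trans (Nat.add_le_add_left ?_ _) this.le
    unfold rich
    refine card_le_card fun n hn => ?_
    rw [mem_filter] at hn ⊢
    refine ⟨hn.1, ?_⟩
    rw [not_le]
    unfold X
    rw [lt_div_iff₀ s0]
    have := hn.2
    nlinarith [le_abs_self x]
  have hle' := (Nat.cast_le (α := ℝ)).2 hle
  rw [Nat.cast_add] at hle'
  have hb : BddAbove (Set.range fun x : ℝ =>
      |(#{n ∈ Icc 1 N | X α β γ N n ≤ x} : ℝ) / (N : ℕ) -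
        cdf (gaussianReal 0 1) x|) := by
    refine ⟨1, ?_⟩
    rintro _ ⟨z, rfl⟩
    have u1 : (#{n ∈ Icc 1 N | X α β γ N n ≤ z} : ℝ) / (N : ℕ) ≤ 1 := by
      rw [div_le_one N0]
      exact Nat.cast_le.2 ((card_filter_le _ _).trans (by simp))
    have u0 : 0 ≤ (#{n ∈ Icc 1 N | X α β γ N n ≤ z} : ℝ) / (N : ℕ) := by
      positivity
    have := cdf_nonneg (gaussianReal 0 1) z
    have := cdf_le_one (gaussianReal 0 1) z
    rw [abs_le]; constructor <;> linarith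
  refine le_trans ?_ (le_ciSup hb x)
  refine le_trans ?_ (neg_le_abs _)
  have h5 : (#{n ∈ Icc 1 N | X α β γ N n ≤ x} : ℝ) / (N : ℕ) ≤ 1 - c := by
    rw [div_le_iff₀ N0]
    linarith
  linarith

end Pool.Agent.H62.EK
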